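import Pool.Agent.V11168.MV.Sec
import Pool.Agent.V11168.Pair.Point

/-! Closed multivalued forms on a quotient, relative to a map to an orbifold. -/

set_option autoImplicit false
set_option linter.overlappingInstances false
set_option linter.unusedSectionVars false

universe u v

open FF IntermediateField Pool.Agent.W619.PQ Pool.Agent.W619.PL Pool.Agent.W619.TW
  Pool.Agent.W603.LV Pool.Agent.W619.Y Pool.Agent.Y173.QA Pool.Agent.Y173.QM Pool.Agent.Y174
  Pool.Agent.V11168.Abund Pool.Agent.V11168.Rel Pool.Agent.V11168.Pair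

namespace Pool.Agent.V11168.MV

section

variable {k : Type v} {L : Type u} [Field k] [CharZero k] [Field L] [Algebra k L]

/-- The 1-form `θ` on `Z`, considered as a multivalued 1-form on the quotient `X` of `Z` by `G`, is
holomorphic: along each prime divisor `v` over `X`, its values on (the lifts to `Z` of) the vector fields
on `X` which are regular along `v` are regular along the prime divisors `w` over `v`. -/
def IsMultiRegOn (G : Subgroup (L ≃ₐ[k] L)) (n : ℕ) (θ : Derivation k L L →ₗ[L] L) : Prop :=
  ∀ (v : Place k (fixedField G)) (w : Place k L) (e : ℕ), IsDivisorial v n → LiesOn w v e →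
    ∀ (D : Derivation k (fixedField G) (fixedField G)) (D' : Derivation k L L),
      (∀ f, v.Reg f → v.Reg (D f)) → (∀ f : fixedField G, D' (f : L) = (D f : L)) → w.Reg (θ D')

/-- The comparison of the divisor `Δ_B` with multiplicities `δB u` on the base with the multiplicities of
the map from `X`: if the prime divisor `w` over `Z` has ramification index `e` over `X`, and lies over
the prime divisor `u` over `B` with multiplicity `c` (so that the image `v` of `w` in `X` lies over `u` with
multiplicity `c / e`), then `e ≤ c (1 - δB u)`. -/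
def MultBound (n : ℕ) (G : Subgroup (L ≃ₐ[k] L)) (M : IntermediateField k L)
    (δB : Place k M → ℝ) : Prop :=
  ∀ (v : Place k (fixedField G)) (w : Place k L) (e : ℕ) (u : Place k M) (c : ℕ),
    IsDivisorial w n → LiesOn w v e → LiesOn w u c → (e : ℝ) ≤ c * (1 - δB u)

theorem core_mv (G : Subgroup (L ≃ₐ[k] L)) [Finite G] {n m : ℕ}
    {v : Place k (fixedField G)} {w : Place k L} {e : ℕ} (hwv : Over w v e)
    {ω : (Fin n → Derivation k L L) → L} (hω : IsPluriForm k L n m ω) (N : ℤ)
    (hlog : ∀ (E : Fin n → Derivation k (fixedField G) (fixedField G))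
      (E' : Fin n → Derivation k L L), (∀ j, Pres v (E j)) →
      (∀ j (f : fixedField G), E' j (f : L) = (E j f : L)) →
      (∀ j z, w.Reg (E' j z / z)) → Ge w (N + m * e) (ω E'))
    (D : Fin n → Derivation k (fixedField G) (fixedField G))
    (D' : Fin n → Derivation k L L) (hD : ∀ j, Pres v (D j))
    (hDD : ∀ j (f : fixedField G), D' j (f : L) = (D j f : L)) : Ge w N (ω D') := by
  classical
  have hfd := fd_fixed G
  obtain ⟨s, hs0, hs⟩ := v.surj
  have hsL : algebraMap (fixedField G) L s ≠ 0 := by simpa using hs0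
  have hlogcase : ∀ (E : Fin n → Derivation k (fixedField G) (fixedField G))
      (E' : Fin n → Derivation k L L), (∀ j, Pres v (E j)) →
      (∀ j (f : fixedField G), E' j (f : L) = (E j f : L)) →
      (∀ j, v.Reg (E j s / s)) → Ge w (N + m * e) (ω E') := by
    intro E E' hE hEE hEs
    refine hlog E E' hE hEE ?_
    intro j
    refine Pool.Agent.Y174.pLOG k (fixedField G) L v w e hwv (E' j) ?_
    intro f
    have h5 : v.Reg (E j f / f) := log_of_pres v (E j) (hE j) hs0 hs (hEs j) f
    have h6 : E' j (algebraMap (fixedField G) L f) / algebraMap (fixedField G) L f =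
        algebraMap (fixedField G) L (E j f / f) := by
      rw [map_div₀]
      congr 1
      exact hEE j f
    rw [h6]
    exact hwv.reg.2 h5
  by_cases hlg : ∀ j, v.Reg (D j s / s)
  · exact (hlogcase D D' hD hDD hlg).mono (by
      have : (0 : ℤ) ≤ m * e := by positivity
      linarith)
  push Not at hlg
  obtain ⟨j0, hj0⟩ := hlg
  have h5 : v.Reg (D j0 s) := hD j0 s (Or.inr (by omega))
  have h6 : D j0 s ≠ 0 := by
    intro h6
    apply hj0
    left
    rw [h6, zero_div]
  have h7 : v.ord (D j0 s) = 0 := by
    have h8 : 0 ≤ v.ord (D j0 s) := h5.resolve_left h6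
    by_contra h9
    apply hj0
    right
    rw [v.ord_div h6 hs0, hs]
    omega
  let c : Fin n → fixedField G := fun j => if j = j0 then 0 else -(D j s / D j0 s)
  let u : Fin n → fixedField G := fun j => if j = j0 then s else 1
  let E : Fin n → Derivation k (fixedField G) (fixedField G) := fun j =>
    u j • (D j + c j • D j0)
  let E' : Fin n → Derivation k L L := fun j =>
    (u j : L) • (D' j + (c j : L) • D' j0)
  have hinv : Ge v 0 (D j0 s)⁻¹ := Or.inr (by rw [v.ord_inv, h7]; simp)
  have hc : ∀ j, Ge v 0 (c j) := by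
    intro j
    by_cases hj : j = j0
    · left; simp [c, hj]
    · simp only [c, hj, if_false]
      have h8 : Ge v 0 (D j s) := hD j s (Or.inr (by omega))
      rw [div_eq_mul_inv]
      simpa using (h8.mul hinv).neg
  have hu : ∀ j, Ge v 0 (u j) := by
    intro j
    by_cases hj : j = j0
    · simp only [u, hj, if_true]; exact Or.inr (by omega)
    · simp only [u, hj, if_false]; exact Ge.one
  have hE : ∀ j, Pres v (E j) := by
    intro j f hf
    change Ge v 0 (u j * (D j f + c j * D j0 f))
    have h8 : Ge v 0 (D j f) := hD j f hf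
    have h9 : Ge v 0 (D j0 f) := hD j0 f hf
    have h10 := (hc j).mul h9
    rw [add_zero] at h10
    simpa using (hu j).mul (h8.add h10)
  have hEE : ∀ j (f : fixedField G), E' j (f : L) = (E j f : L) := by
    intro j f
    change (u j : L) * (D' j (f : L) + (c j : L) * D' j0 (f : L)) = _
    rw [hDD, hDD]
    rfl
  have hEs : ∀ j, v.Reg (E j s / s) := by
    intro j
    change v.Reg (u j * (D j s + c j * D j0 s) / s)
    by_cases hj : j = j0
    · have h8 : u j * (D j s + c j * D j0 s) / s = D j0 s := by
        simp only [u, c, hj, if_true, zero_mul, add_zero]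
        field_simp
      rw [h8]
      exact h5
    · have h8 : u j * (D j s + c j * D j0 s) / s = 0 := by
        simp only [u, c, hj, if_false]
        field_simp
        ring
      rw [h8]
      exact Or.inl rfl
  have hdet : ω E' = (s : L) ^ m * ω D' := by
    have h8 := pluri_change hω D' j0 (fun j => (c j : L)) (fun j => (u j : L)) (by simp [c])
    have h9 : ∏ j, (u j : L) = (s : L) := by
      have h10 : ∀ j, (u j : L) = if j = j0 then (s : L) else 1 := by
        intro j
        simp only [u]
        split_ifs <;> rfl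
      rw [Finset.prod_congr rfl fun j _ => h10 j]
      simp
    rw [h9] at h8
    exact h8
  have h10 := hlogcase E E' hE hEE hEs
  rw [hdet] at h10
  have hsL' : (s : L) ≠ 0 := hsL
  have hsord : w.ord (s : L) = e := by
    have h12 := hwv.2 s
    rw [hs, mul_one] at h12
    exact h12
  refine Ge.of_mul' (P := w) (N := N) (m := m * e) (pow_ne_zero m hsL') ?_ h10
  rw [w.ord_pow, hsord]

/-- the local estimate -/
theorem est_mv {d f m0 : ℕ} (G : Subgroup (L ≃ₐ[k] L)) [Finite G]
    {M : IntermediateField k L} (hMK : ∀ x ∈ M, x ∈ fixedField G)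
    {δB : Place k M → ℝ} (hB2 : MultBound (d + f) G M δB)
    {v : Place k (fixedField G)} {w : Place k L} {e : ℕ} (hwv : Over w v e)
    (hv : IsDivisorial v (d + f)) (hw : IsDivisorial w (d + f))
    {y : Fin d → L} {a : L} (hgood : BGoodP M d m0 δB w y a)
    {θ : Fin f → Derivation k L L →ₗ[L] L} (hθ : ∀ i, IsMultiRegOn G (d + f) (θ i))
    {D : Fin (d + f) → Derivation k (fixedField G) (fixedField G)}
    {D' : Fin (d + f) → Derivation k L L} (hD : ∀ j, Pres v (D j))
    (hDD : ∀ j (f : fixedField G), D' j (f : L) = (D j f : L)) :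
    GeR w 0 (a * eta (fam y θ) D' ^ m0) := by
  obtain ⟨Z, z, c, bl, β, hzM, hzr, hyz, hdet, hc, hbl, hblc⟩ := hgood
  have hval : a * eta (fam y θ) D' ^ m0 = (a * Z.det ^ m0) * eta (fam z θ) D' ^ m0 := by
    rw [eta_base Z hyz, mul_pow, mul_assoc]
  rw [hval]
  have hm0 : (0 : ℝ) ≤ m0 := Nat.cast_nonneg m0
  rcases hc with ⟨u, hu, rfl⟩ | ⟨rfl, h5⟩
  · have h1 : Ge w ((c : ℤ) - e) (eta (fam z θ) D') := by
      refine core_mv G hwv (m := 1) (eta_pluri (fam z θ)) _ (fun E E' hE hEE hlog => ?_) D D' hD hDD
      have h2 := eta_log hbl (θ := θ) hlog (fun i j => hθ i v w e hv hwv (E j) (E' j) (hE j) (hEE j))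
      rw [hblc] at h2
      refine h2.mono ?_
      push_cast
      linarith
    refine (hdet.mul ((Ge.toR h1).pow m0)).mono ?_
    have h3 := hB2 v w e u c hw hwv hu
    have h4 := mul_le_mul_of_nonneg_left h3 hm0
    push_cast
    linarith
  · have h1 : Ge w 0 (eta (fam z θ) D') := by
      unfold eta
      refine Pool.Agent.W619.PQ.ge_det w _ fun i j => ?_
      rw [Matrix.of_apply]
      refine Fin.addCases (fun l => ?_) (fun b => ?_) i
      · rw [fam_left, Pool.Agent.Y173.QM.dform_apply]
        have h2 := hDD j ⟨z l, hMK _ (hzM l)⟩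
        change D' j (z l) = _ at h2
        rw [h2]
        have h3 : v.Reg (⟨z l, hMK _ (hzM l)⟩ : fixedField G) := hwv.reg.1 (hzr l)
        exact hwv.reg.2 (hD j _ h3)
      · rw [fam_right]
        exact hθ b v w e hv hwv (D j) (D' j) (hD j) (hDD j)
    refine (hdet.mul ((Ge.toR h1).pow m0)).mono ?_
    push_cast
    linarith

end

end Pool.Agent.V11168.MV
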