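import Pool.Agent.V11168.MV.Clo
import Pool.Agent.V11168.Pair.Main

/-! Closed multivalued forms on a quotient, relative to a map to an orbifold: the main theorem. -/

set_option autoImplicit false
set_option linter.overlappingInstances false
set_option linter.unusedSectionVars false

open FF IntermediateField Pool.Agent.W619.PQ Pool.Agent.W619.PL Pool.Agent.W619.TW
  Pool.Agent.W603.LV Pool.Agent.W619.Y Pool.Agent.Y173.QA Pool.Agent.Y173.QM Pool.Agent.Y174
  Pool.Agent.V11168.Abund Pool.Agent.V11168.Rel Pool.Agent.V11168.Pair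

namespace Pool.Agent.V11168.MV

variable {k : Type} [Field k] [CharZero k] {L : Type} [Field L] [Algebra k L]
  {M M' : IntermediateField k L}

/-- **The lower bound.** -/
theorem kod_mv [IsAlgClosed k] (hessM : Algebra.EssFiniteType k M) {d r : ℕ}
    (G : Subgroup (L ≃ₐ[k] L)) [Finite G] (hMM' : M ≤ M') (hMK : ∀ x ∈ M, x ∈ fixedField G)
    (hM : Algebra.trdeg k M = d)
    (hn : Algebra.trdeg k L = (d + (r + 1) : ℕ))
    {V : Submodule k (Derivation k L L →ₗ[L] L)}
    (hV : ∀ θ ∈ V, IsMultiRegOn G (d + (r + 1)) θ)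
    {δB : Place k M → ℝ} (hB2 : MultBound (d + (r + 1)) G M δB)
    {y : Fin d → M} (hy : IsTranscendenceBasis k y)
    {θ : Fin (r + 1) → Derivation k L L →ₗ[L] L} (hθ : ∀ i, θ i ∈ V)
    {P : Fin (d + (r + 1)) → Derivation k L L}
    (hP1 : ∀ i j, fam (fun l => (y l : L)) θ i (P j) = if i = j then 1 else 0)
    (hP2 : ∀ D, D = ∑ i, fam (fun l => (y l : L)) θ i D • P i)
    {a : ℕ} {t : Fin a → L} (ht : AlgebraicIndependent M' t)
    (htP : ∀ j, ∃ τ ∈ V, ∃ i, t j = τ (P (Fin.natAdd d i))) {h : ℕ}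
    (hkod : PairKod k M d δB h) :
    PairKod k (fixedField G) (d + (r + 1)) (fun _ => 0) (h + a) := by
  classical
  obtain ⟨m0, hm0, η, hη, Dη, h0, hind⟩ := hkod
  obtain ⟨E, hE⟩ := Pool.Agent.W636.PG.exists_duals k M d y hy
  have hgood : ∀ l (w : Place k L), IsDivisorial w (d + (r + 1)) →
      BGoodP M d m0 δB w (fun l => (y l : L)) ((η l E : M) : L) := by
    intro l w hw
    refine base_locP M d (d + (r + 1)) m0 hM hn
      (fun y hy => Pool.Agent.W824.PG.fin_adj hessM y hy)
      (hη l).1 hy hE hw (fun u hdu D hD => ?_)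
    rcases (hη l).2 u hdu D hD with h1 | ⟨s, -, -, h1⟩
    · exact Or.inl h1
    · right
      refine le_trans ?_ h1
      push_cast
      linarith
  -- the values on the dual frame
  obtain ⟨A, hA⟩ : ∃ A : Matrix (Fin d) (Fin d) M, ∀ l, η l Dη = A.det ^ m0 * η l E := by
    refine ⟨Matrix.of fun i j => Dη i (y j), fun l => ?_⟩
    have h2 := (hη l).1 (Matrix.of fun i j => Dη i (y j)) E
    have h3 : (fun i => ∑ j, (Matrix.of fun i j => Dη i (y j)) i j • E j) = Dη := by
      funext i
      exact Pool.Agent.W73.PG.PULL.expand y hy E hE (Dη i)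
    rw [h3] at h2
    exact h2
  have hA0 : A.det ^ m0 ≠ 0 := fun h1 => h0 0 (by rw [hA, h1, zero_mul])
  have hηE : ∀ l, η l E ≠ 0 := fun l h1 => h0 l (by rw [hA, h1, mul_zero])
  have hratio : ∀ l : Fin h, η l.succ Dη / η 0 Dη = η l.succ E / η 0 E := by
    intro l
    rw [hA, hA, mul_div_mul_left _ _ hA0]
  simp only [hratio] at hind
  choose τ hτ i hi using htP
  let φ : Fin (d + (r + 1)) → Derivation k L L →ₗ[L] L := fam (fun l => (y l : L)) θ
  have hφP : eta φ P = 1 := by
    unfold eta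
    have h1 : (Matrix.of fun i j => φ i (P j)) = 1 := by
      ext i j
      rw [Matrix.of_apply, hP1, Matrix.one_apply]
    rw [h1, Matrix.det_one]
  let Θ : Fin a → Fin (r + 1) → Derivation k L L →ₗ[L] L := fun j =>
    Function.update θ (i j) (τ j)
  have hΘV : ∀ j b, Θ j b ∈ V := by
    intro j b
    by_cases hb : b = i j
    · change Function.update θ (i j) (τ j) b ∈ V
      rw [hb, Function.update_self]
      exact hτ j
    · change Function.update θ (i j) (τ j) b ∈ V
      rw [Function.update_of_ne hb]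
      exact hθ b
  have hΘ : ∀ j D, eta (fam (fun l => (y l : L)) (Θ j)) D = t j * eta φ D := by
    intro j D
    have h1 : fam (fun l => (y l : L)) (Θ j) =
        Function.update φ (Fin.natAdd d (i j)) (τ j) := by
      funext b
      refine Fin.addCases (fun l => ?_) (fun l => ?_) b
      · rw [fam_left, Function.update_of_ne]
        · exact (fam_left (fun l => (y l : L)) θ l).symm
        · intro h
          have h3 := congrArg Fin.val h
          simp only [Fin.val_castAdd, Fin.val_natAdd] at h3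
          omega
      · rw [fam_right]
        by_cases hl : l = i j
        · rw [hl, Function.update_self]
          exact Function.update_self _ _ _
        · rw [Function.update_of_ne (fun h => hl (Fin.natAdd_injective _ _ h))]
          change Function.update θ (i j) (τ j) l = _
          rw [Function.update_of_ne hl]
          exact (fam_right (fun l => (y l : L)) θ l).symm
    rw [h1, eta_update hP2, hi]
  -- the forms
  let ψ : Fin (h + a) → (Fin (d + (r + 1)) → Derivation k L L) → L := Fin.append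
    (fun l : Fin h => fun D => ((η l.succ E : M) : L) * eta φ D ^ m0)
    (fun j : Fin a => fun D => ((η 0 E : M) : L) *
      eta (fam (fun l => (y l : L)) (Θ j)) D ^ m0)
  let Ω : Fin (h + a + 1) → (Fin (d + (r + 1)) → Derivation k L L) → L :=
    Fin.cons (fun D => ((η 0 E : M) : L) * eta φ D ^ m0) ψ
  have hψ1 : ∀ l D, ψ (Fin.castAdd a l) D = ((η l.succ E : M) : L) * eta φ D ^ m0 := fun l D =>
    congrFun (Fin.append_left _ _ l) D
  have hψ2 : ∀ j D, ψ (Fin.natAdd h j) D = ((η 0 E : M) : L) *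
      eta (fam (fun l => (y l : L)) (Θ j)) D ^ m0 := fun j D =>
    congrFun (Fin.append_right _ _ j) D
  -- each of them has the shape of the estimate
  have hshape : ∀ l, ∃ (l0 : Fin (h + 1)) (θ' : Fin (r + 1) → Derivation k L L →ₗ[L] L),
      (∀ b, θ' b ∈ V) ∧ Ω l = fun D => ((η l0 E : M) : L) *
        eta (fam (fun l => (y l : L)) θ') D ^ m0 := by
    intro l
    refine Fin.cases ?_ (fun l => ?_) l
    · exact ⟨0, θ, hθ, rfl⟩
    · refine Fin.addCases (fun l => ?_) (fun j => ?_) l
      · refine ⟨l.succ, θ, hθ, ?_⟩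
        change ψ (Fin.castAdd a l) = _
        exact Fin.append_left _ _ l
      · refine ⟨0, Θ j, hΘV j, ?_⟩
        change ψ (Fin.natAdd h j) = _
        exact Fin.append_right _ _ j
  refine pair_descent G hn (m := m0) hm0 (fun _ => 0) Ω ?_ ?_ P ?_ ?_
  · intro l
    obtain ⟨l0, θ', -, hl⟩ := hshape l
    rw [hl]
    exact pluri_pow _ _
  · intro v hv
    obtain ⟨w, e, hwv, hg⟩ := exists_rot G v hv
    refine ⟨w, e, hwv, fun D D' hD hDD l g => ?_⟩
    obtain ⟨h1, h2, -⟩ := hg g
    obtain ⟨l0, θ', hθ', hl⟩ := hshape l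
    rw [← GeR.comp, hl]
    refine (est_mv G hMK hB2 h1 hv h2 (hgood l0 _ h2) (fun i => hV _ (hθ' i)) hD hDD).mono ?_
    simp
  · intro l
    refine Fin.cases ?_ (fun l => ?_) l
    · change ((η 0 E : M) : L) * eta φ P ^ m0 ≠ 0
      rw [hφP, one_pow, mul_one]
      exact fun h1 => hηE 0 (Subtype.ext h1)
    · refine Fin.addCases (fun l => ?_) (fun j => ?_) l
      · change ψ (Fin.castAdd a l) P ≠ 0
        rw [hψ1, hφP, one_pow, mul_one]
        exact fun h1 => hηE _ (Subtype.ext h1)
      · change ψ (Fin.natAdd h j) P ≠ 0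
        rw [hψ2, hΘ, hφP, mul_one]
        exact mul_ne_zero (fun h1 => hηE _ (Subtype.ext h1)) (pow_ne_zero _ (ht.ne_zero j))
  · have h1 : (fun l : Fin (h + a) => Ω l.succ P / Ω 0 P) =
        Fin.append (fun l => ((η l.succ E / η 0 E : M) : L)) (fun j => t j ^ m0) := by
      funext l
      have h2 : Ω 0 P = ((η 0 E : M) : L) := by
        change ((η 0 E : M) : L) * eta φ P ^ m0 = _
        rw [hφP, one_pow, mul_one]
      have h3 : ((η 0 E : M) : L) ≠ 0 := fun h1 => hηE 0 (Subtype.ext h1)
      rw [h2]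
      refine Fin.addCases (fun l => ?_) (fun j => ?_) l
      · change ψ (Fin.castAdd a l) P / _ = _
        rw [hψ1, hφP, one_pow, mul_one, Fin.append_left]
        rfl
      · change ψ (Fin.natAdd h j) P / _ = _
        rw [hψ2, hΘ, hφP, mul_one, Fin.append_right, mul_div_cancel_left₀ _ h3]
    rw [h1]
    have h2 : AlgebraicIndependent k (fun l : Fin h =>
        (⟨((η l.succ E / η 0 E : M) : L), hMM' (η l.succ E / η 0 E).2⟩ : M')) :=
      hind.map' (f := IntermediateField.inclusion hMM')
        (IntermediateField.inclusion hMM').injective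
    exact indep_join h2 (indep_pow hm0 ht)

/-- **The main theorem.** -/
theorem clo_main [IsAlgClosed k] [hess : Algebra.EssFiniteType k L]
    [hessM : Algebra.EssFiniteType k M] [hessM' : Algebra.EssFiniteType k M']
    (hMM' : M ≤ M') (hMcl : ∀ x : L, IsAlgebraic M' x → x ∈ M') {d r : ℕ}
    (hM : Algebra.trdeg k M = d) (hM' : Algebra.trdeg k M' = d)
    (hn : Algebra.trdeg k L = (d + (r + 1) : ℕ))
    (G : Subgroup (L ≃ₐ[k] L)) [Finite G] (hMK : ∀ x ∈ M, x ∈ fixedField G)
    {V : Submodule k (Derivation k L L →ₗ[L] L)}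
    (hreg : ∀ θ ∈ V, IsRegForm (d + (r + 1)) θ)
    (hcl : ∀ θ ∈ V, IsClosedForm θ)
    (hV : ∀ θ ∈ V, IsMultiRegOn G (d + (r + 1)) θ)
    {δB : Place k M → ℝ} (hB2 : MultBound (d + (r + 1)) G M δB)
    {θ : Fin (r + 1) → Derivation k L L →ₗ[L] L} (hθ : ∀ i, θ i ∈ V)
    (hind : IndepOver (m := d) M' θ) :
    ∃ a : ℕ, a + Module.finrank M' (constFields (fibreForms M' V)) = r + 1 ∧
      (∀ h, PairKod k M d δB h → PairKod k (fixedField G) (d + (r + 1)) (fun _ => 0) (h + a)) ∧
      (IsRegularOnModel (constFields (fibreForms M' V)) →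
        PairNum k (fixedField G) (d + (r + 1)) (fun _ => 0) (d + a) ∧
        NumLe M' L (r + 1) (fun _ => False) a) ∧ KodTr M' L (r + 1) a := by
  obtain ⟨y, hy⟩ := Pool.Agent.W636.PG.exists_basis k M d hM
  obtain ⟨y', hy'e⟩ : ∃ y' : Fin d → M', ∀ l, (y' l : L) = y l :=
    ⟨fun l => ⟨y l, hMM' (y l).2⟩, fun l => rfl⟩
  have hyi : AlgebraicIndependent k y' := by
    have h1 : y' = IntermediateField.inclusion hMM' ∘ y := by
      funext l
      exact Subtype.ext (hy'e l)
    rw [h1]
    exact hy.1.map' (IntermediateField.inclusion hMM').injective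
  have hy' : IsTranscendenceBasis k y' := hyi.isTranscendenceBasis_of_trdeg_le_of_finite (by
    rw [hM']
    simp)
  obtain ⟨P, Pv, hP1, hP2, hPv⟩ := frame_fib hn hy' hind
  have hyy : (fun l => (y' l : L)) = fun l => (y l : L) := funext hy'e
  obtain ⟨a, s, t, U, has, ht, htP, hU, hUt, hUspan, hrank, hk⟩ :=
    fibre_str hess hMcl hM' hn hreg hcl hθ hP1 hPv
  rw [hyy] at hP1 hP2
  refine ⟨a, by rw [hrank]; exact has, fun h hh =>
    kod_mv hessM G hMM' hMK hM hn hV hB2 hy hθ hP1 hP2 ht htP hh, fun hmod => ⟨?_, ?_⟩, hk⟩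
  · refine upper_main hMcl hM' hn G (δ := fun _ => 0) (fun _ => le_rfl) (T := {1}) (fun v _ =>
      ⟨1, Finset.mem_singleton_self 1, one_ne_zero, by rw [v.ord_one]; simp⟩) hmod has ht hU hUt
      hUspan (fun v w e _ he _ => Or.inl ?_)
    have h4 : (1 : ℝ) ≤ e := by exact_mod_cast he.1
    have h5 : (1 : ℝ) / e ≤ 1 := by
      rw [div_le_one (by linarith)]
      exact h4
    linarith
  · exact fibre_num hess hM' hn hmod has ht hU hUt hUspan

end Pool.Agent.V11168.MV
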