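import Pool.Agent.V11168.Pair.Loc
import Pool.Agent.V11168.Rel.Fib2
import Pool.Agent.V11168.Rel.PairDim
import Pool.Agent.Y174.L4
import Pool.Agent.Y174.B6
import Pool.Agent.Y174.B7

/-! Multivalued logarithmic forms relative to an orbifold base: local estimates. -/

set_option autoImplicit false
set_option linter.overlappingInstances false
set_option linter.unusedSectionVars false

universe u v

open FF IntermediateField Pool.Agent.W619.PQ Pool.Agent.W619.PL Pool.Agent.W619.TW
  Pool.Agent.W603.LV Pool.Agent.W619.Y Pool.Agent.Y173.QA Pool.Agent.Y173.QM Pool.Agent.Y174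
  Pool.Agent.V11168.Pair

namespace Pool.Agent.V11168.MV

section

variable {k : Type v} {L : Type u} [Field k] [CharZero k] [Field L] [Algebra k L]

/-- From the logarithmic vector fields to the regular ones one loses one order. -/
theorem log_to_pres {n m : ℕ} {ω : (Fin n → Derivation k L L) → L} (hω : IsPluriForm k L n m ω)
    {w : Place k L} {N : ℝ}
    (hlog : ∀ E : Fin n → Derivation k L L, (∀ j z, w.Reg (E j z / z)) → GeR w N (ω E))
    (D : Fin n → Derivation k L L) (hD : ∀ j, Pres w (D j)) : GeR w (N - m) (ω D) := by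
  classical
  obtain ⟨s, hs0, hs⟩ := w.surj
  by_cases hlg : ∀ j, w.Reg (D j s / s)
  · exact (hlog D fun j z => log_of_pres w (D j) (hD j) hs0 hs (hlg j) z).mono (by
      have : (0 : ℝ) ≤ m := Nat.cast_nonneg m
      linarith)
  push Not at hlg
  obtain ⟨j0, hj0⟩ := hlg
  have h5 : w.Reg (D j0 s) := hD j0 s (Or.inr (by omega))
  have h6 : D j0 s ≠ 0 := by
    intro h6
    apply hj0
    left
    rw [h6, zero_div]
  have h7 : w.ord (D j0 s) = 0 := by
    have h8 : 0 ≤ w.ord (D j0 s) := h5.resolve_left h6
    by_contra h9
    apply hj0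
    right
    rw [w.ord_div h6 hs0, hs]
    omega
  let c : Fin n → L := fun j => if j = j0 then 0 else -(D j s / D j0 s)
  let u : Fin n → L := fun j => if j = j0 then s else 1
  let E : Fin n → Derivation k L L := fun j => u j • (D j + c j • D j0)
  have hinv : Ge w 0 (D j0 s)⁻¹ := Or.inr (by rw [w.ord_inv, h7]; simp)
  have hc : ∀ j, Ge w 0 (c j) := by
    intro j
    by_cases hj : j = j0
    · left; simp [c, hj]
    · simp only [c, hj, if_false]
      have h8 : Ge w 0 (D j s) := hD j s (Or.inr (by omega))
      rw [div_eq_mul_inv]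
      simpa using (h8.mul hinv).neg
  have hu : ∀ j, Ge w 0 (u j) := by
    intro j
    by_cases hj : j = j0
    · simp only [u, hj, if_true]; exact Or.inr (by omega)
    · simp only [u, hj, if_false]; exact Ge.one
  have hE : ∀ j, Pres w (E j) := by
    intro j f hf
    change Ge w 0 (u j * (D j f + c j * D j0 f))
    have h8 : Ge w 0 (D j f) := hD j f hf
    have h9 : Ge w 0 (D j0 f) := hD j0 f hf
    have h10 := (hc j).mul h9
    rw [add_zero] at h10
    simpa using (hu j).mul (h8.add h10)
  have hEs : ∀ j, w.Reg (E j s / s) := by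
    intro j
    change w.Reg (u j * (D j s + c j * D j0 s) / s)
    by_cases hj : j = j0
    · have h8 : u j * (D j s + c j * D j0 s) / s = D j0 s := by
        simp only [u, c, hj, if_true, zero_mul, add_zero]
        field_simp
      rw [h8]
      exact h5
    · have h8 : u j * (D j s + c j * D j0 s) / s = 0 := by
        simp only [u, c, hj, if_false]
        field_simp
        ring
      rw [h8]
      exact Or.inl rfl
  have hdet : ω E = s ^ m * ω D := by
    have h8 := pluri_change hω D j0 c u (by simp [c])
    have h9 : ∏ j, u j = s := by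
      simp only [u]
      simp
    rw [h9] at h8
    exact h8
  have h10 := hlog E fun j z => log_of_pres w (E j) (hE j) hs0 hs (hEs j) z
  rw [hdet] at h10
  by_cases h0 : ω D = 0
  · exact Or.inl h0
  right
  have h11 := h10.resolve_left (mul_ne_zero (pow_ne_zero m hs0) h0)
  rw [w.ord_mul (pow_ne_zero m hs0) h0, w.ord_pow, hs] at h11
  push_cast at h11
  linarith

/-- the values of the differentials on logarithmic vector fields -/
theorem ge_logval {w : Place k L} {b : ℤ} {z : L} (hz : Ge w b z) {D : Derivation k L L}
    (hD : ∀ f, w.Reg (D f / f)) : Ge w b (D z) := by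
  by_cases h0 : z = 0
  · rw [h0, map_zero]; exact Ge.zero
  · have h1 : Ge w 0 (D z / z) := hD z
    have h2 := h1.mul hz
    rwa [div_mul_cancel₀ _ h0, zero_add] at h2

/-- the determinant of differentials and of regular 1-forms on logarithmic vector fields -/
theorem eta_log {w : Place k L} {d r : ℕ} {z : Fin d → L} {b : Fin d → ℤ}
    (hz : ∀ l, Ge w (b l) (z l)) {θ : Fin r → Derivation k L L →ₗ[L] L}
    {D : Fin (d + r) → Derivation k L L} (hD : ∀ j f, w.Reg (D j f / f))
    (hθ : ∀ i j, w.Reg (θ i (D j))) : Ge w (∑ l, b l) (eta (fam z θ) D) := by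
  unfold eta
  refine Pool.Agent.W603.LV.ge_det w _ _
    (fun i _ => Fin.addCases (motive := fun _ => ℤ) b (fun _ => 0) i) (fun i j => ?_) (fun σ => ?_)
  · rw [Matrix.of_apply]
    refine Fin.addCases (fun l => ?_) (fun a => ?_) i
    · rw [fam_left, Fin.addCases_left]
      exact ge_logval (hz l) (hD j)
    · rw [fam_right, Fin.addCases_right]
      exact hθ a j
  · rw [Equiv.sum_comp σ (fun i => Fin.addCases (motive := fun _ => ℤ) b (fun _ => 0) i),
      Fin.sum_univ_add]
    simp

/-- the determinant of differentials and of regular 1-forms on regular vector fields -/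
theorem eta_pres0 {w : Place k L} {d r : ℕ} {z : Fin d → L}
    (hz : ∀ l, w.Reg (z l)) {θ : Fin r → Derivation k L L →ₗ[L] L}
    {D : Fin (d + r) → Derivation k L L} (hD : ∀ j, Pres w (D j))
    (hθ : ∀ i j, w.Reg (θ i (D j))) : Ge w 0 (eta (fam z θ) D) := by
  unfold eta
  refine Pool.Agent.W619.PQ.ge_det w _ fun i j => ?_
  rw [Matrix.of_apply]
  refine Fin.addCases (fun l => ?_) (fun a => ?_) i
  · rw [fam_left]
    exact hD j _ (hz l)
  · rw [fam_right]
    exact hθ a j

end

end Pool.Agent.V11168.MV
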