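import Pool.Agent.V11168.MV.Sec

/-! Multivalued logarithmic forms relative to an orbifold base: the main theorem. -/

set_option autoImplicit false
set_option linter.overlappingInstances false
set_option linter.unusedSectionVars false

universe u v

open FF IntermediateField Pool.Agent.W619.PQ Pool.Agent.W619.PL Pool.Agent.W619.TW
  Pool.Agent.W603.LV Pool.Agent.W619.Y Pool.Agent.Y173.QA Pool.Agent.Y173.QM Pool.Agent.Y174
  Pool.Agent.V11168.Pair

namespace Pool.Agent.V11168.MV

section

variable {k : Type v} {L : Type u} [Field k] [CharZero k] [Field L] [Algebra k L]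

theorem duals_sub {d : ℕ} {y : Fin d → L} (hy : AlgebraicIndependent k y) :
    ∃ E : Fin d → Derivation k L L, ∀ i j, E i (y j) = if i = j then 1 else 0 := by
  classical
  have hs : AlgebraicIndepOn k id (Set.range y) := hy.coe_range
  obtain ⟨B, hyB, hB⟩ := exists_isTranscendenceBasis_superset hs
  obtain ⟨E, hE⟩ := Pool.Agent.Y173.QA.exists_duals hB
  refine ⟨fun i => E ⟨y i, hyB ⟨i, rfl⟩⟩, fun i j => ?_⟩
  have h1 := hE ⟨y i, hyB ⟨i, rfl⟩⟩ ⟨y j, hyB ⟨j, rfl⟩⟩
  have h2 : ((⟨y i, hyB ⟨i, rfl⟩⟩ : B) = ⟨y j, hyB ⟨j, rfl⟩⟩) ↔ i = j :=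
    ⟨fun h => hy.injective (congrArg Subtype.val h), fun h => by rw [h]⟩
  simp only [h2] at h1
  exact h1

theorem indep_dform {d : ℕ} {y : Fin d → L} (hy : AlgebraicIndependent k y) :
    LinearIndependent L (fun l => Pool.Agent.Y173.QM.dform (k := k) (y l)) := by
  obtain ⟨E, hE⟩ := duals_sub hy
  rw [Fintype.linearIndependent_iff]
  intro g hg i
  have h1 := congrArg (fun f : Derivation k L L →ₗ[L] L => f (E i)) hg
  simp only [LinearMap.sum_apply, LinearMap.smul_apply, smul_eq_mul, LinearMap.zero_apply] at h1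
  rw [Finset.sum_eq_single i] at h1
  · have h2 : (Pool.Agent.Y173.QM.dform (k := k) (y i)) (E i) = 1 := by
      have h3 := hE i i
      rw [if_pos rfl] at h3
      exact h3
    rw [h2, mul_one] at h1
    exact h1
  · intro b _ hb
    have h2 : (Pool.Agent.Y173.QM.dform (k := k) (y b)) (E i) = 0 := by
      have h3 := hE i b
      rw [if_neg (Ne.symm hb)] at h3
      exact h3
    rw [h2, mul_zero]
  · intro h
    exact absurd (Finset.mem_univ _) h

theorem eta_ne {n : ℕ} (hn : Algebra.trdeg k L = n) {φ : Fin n → Derivation k L L →ₗ[L] L}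
    (hφ : LinearIndependent L φ) : ∃ D, eta φ D ≠ 0 := by
  classical
  obtain ⟨t, ht⟩ := Pool.Agent.W636.PG.exists_basis k L n hn
  obtain ⟨E, hE⟩ := Pool.Agent.W636.PG.exists_duals k L n t ht
  refine ⟨E, fun h0 => ?_⟩
  obtain ⟨v, hv, hv0⟩ := Matrix.exists_vecMul_eq_zero_iff.2 h0
  apply hv
  rw [Fintype.linearIndependent_iff] at hφ
  have h1 := hφ v (by
    apply LinearMap.ext
    intro D
    rw [← Pool.Agent.W73.PG.PULL.expand t ht E hE D, map_sum, LinearMap.zero_apply]
    refine Finset.sum_eq_zero fun b _ => ?_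
    rw [map_smul]
    have h2 := congrFun hv0 b
    rw [Matrix.vecMul, dotProduct, Pi.zero_apply] at h2
    have h3 : (∑ i, v i • φ i) (E b) = ∑ i, v i * φ i (E b) := by
      rw [LinearMap.sum_apply]
      rfl
    rw [h3]
    have h4 : ∑ i, v i * φ i (E b) = 0 := h2
    rw [h4, smul_zero])
  funext i
  exact h1 i

end

section

variable {k : Type v} {K L : Type u} [Field k] [CharZero k] [Field K] [Field L] [Algebra k K]
  [Algebra k L] [Algebra K L] [IsScalarTower k K L] [Algebra.IsAlgebraic K L]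

theorem pull_eq {n : ℕ} (hn : Algebra.trdeg k K = n) {y : K} {α' : Derivation k L L →ₗ[L] L}
    (h : IsPullForm (Pool.Agent.Y173.QM.dform (k := k) y) α') :
    α' = Pool.Agent.Y173.QM.dform (k := k) (algebraMap K L y) := by
  classical
  obtain ⟨t, ht⟩ := Pool.Agent.W636.PG.exists_basis k K n hn
  obtain ⟨E, hE⟩ := Pool.Agent.W636.PG.exists_duals k K n t ht
  choose X hX _ _ using fun b => Pool.Agent.Y174.pEXT k K L n hn (E b)
  have htL : IsTranscendenceBasis k (fun j => algebraMap K L (t j)) := ht.algebraMap_comp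
  have hXL : ∀ i j, X i (algebraMap K L (t j)) = if i = j then 1 else 0 := by
    intro i j
    rw [hX, hE]
    split_ifs <;> simp
  apply LinearMap.ext
  intro D
  have h1 := Pool.Agent.W73.PG.PULL.expand _ htL X hXL D
  have h2 : Pool.Agent.Y173.QM.dform (k := k) (algebraMap K L y) D =
      ∑ c, D (algebraMap K L (t c)) * algebraMap K L (E c y) :=
    Pool.Agent.W73.PG.PULL.chain t ht E hE D y
  rw [h2]
  conv_lhs => rw [← h1]
  rw [map_sum]
  refine Finset.sum_congr rfl fun b _ => ?_
  rw [map_smul, smul_eq_mul, h (E b) (X b) (hX b)]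
  rfl

end

section

variable {k : Type v} [Field k] [CharZero k] {K Ω : Type u} [Field K] [Field Ω]
  [Algebra k K] [Algebra k Ω] [Algebra K Ω] [IsScalarTower k K Ω]

/-- **The main theorem.** -/
theorem mv_main [Normal K Ω] (hess : Algebra.EssFiniteType k K)
    (M : IntermediateField k K) (hessM : Algebra.EssFiniteType k M) {d r : ℕ}
    (hM : Algebra.trdeg k M = d) (hn : Algebra.trdeg k K = (d + r : ℕ))
    (Bd : Place k K → Prop) (δ : Place k K → ℝ) (hδ : ∀ v, 0 ≤ δ v) (hB : ∀ v, Bd v → δ v = 1)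
    {δB : Place k M → ℝ} (hδB : ∀ u, δB u ≤ 1)
    (hmor : ∀ v : Place k K, IsDivisorial v (d + r) → ∀ (u : Place k M) (c : ℕ), LiesOn v u c →
      1 - δ v ≤ c * (1 - δB u))
    (hkod : PairKod k M d δB 0)
    {ι : Type*} [Finite ι] (ω : ι → Derivation k K K →ₗ[K] Ω)
    (hreg : ∀ i, MultiLog (d + r) Bd (ω i))
    (hker : ∀ D : Derivation k K K, (∀ x ∈ M, D x = 0) → (∀ i, ω i D = 0) → D = 0) :
    ∃ L : IntermediateField K Ω, FiniteDimensional K L ∧ IsGalois K L ∧
      (∃ θ : Fin r → (Derivation k L L →ₗ[L] L),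
        (∀ c : Fin r → L, (∀ D : Derivation k L L, (∀ x ∈ M, D (algebraMap K L x) = 0) →
          ∑ i, c i * θ i D = 0) → c = 0) ∧
        ∀ i, ∀ w : Place k L, IsDivisorial w (d + r) → ∀ D : Derivation k L L,
          LogFld (BdOn Bd) w D → w.Reg (θ i D)) ∧
      (∀ h, PairKod k M d δB h → PairKod k K (d + r) δ h) ∧
      ∀ δ' : Place k L → ℝ, IsPull δ δ' →
        (∀ a, PairKod k K (d + r) δ a ↔ PairKod k L (d + r) δ' a) ∧
        ∀ a, PairNum k L (d + r) δ' a → PairNum k K (d + r) δ a := by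
  classical
  obtain ⟨y, hy⟩ := Pool.Agent.W636.PG.exists_basis k M d hM
  obtain ⟨E, hE⟩ := Pool.Agent.W636.PG.exists_duals k M d y hy
  have hyK : AlgebraicIndependent k (fun l => (y l : K)) :=
    hy.1.map' (f := M.val) Subtype.val_injective
  -- good coordinates
  have hgood : ∀ (m : ℕ) (η : (Fin d → Derivation k M M) → M), PairSec k M d δB {1} m 0 η →
      ∀ v : Place k K, IsDivisorial v (d + r) →
        BGoodP M d m δB v (fun l => (y l : K)) ((η E : M) : K) := by
    intro m η hη v hv
    refine base_locP M d (d + r) m hM hn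
      (fun y hy => Pool.Agent.W824.PG.fin_adj hessM y hy) hη.1 hy hE hv (fun u hdu D hD => ?_)
    rcases hη.2 u hdu D hD with h1 | ⟨s, -, -, h1⟩
    · exact Or.inl h1
    · right
      refine le_trans ?_ h1
      push_cast
      linarith
  -- the values on the dual frame
  have hval : ∀ (m : ℕ) (η : (Fin d → Derivation k M M) → M), IsPluriForm k M d m η →
      ∀ D, η D = (Matrix.of fun i j => D i (y j)).det ^ m * η E := by
    intro m η hη D
    have h2 := hη (Matrix.of fun i j => D i (y j)) E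
    have h3 : (fun i => ∑ j, (Matrix.of fun i j => D i (y j)) i j • E j) = D := by
      funext i
      exact Pool.Agent.W73.PG.PULL.expand y hy E hE (D i)
    rw [h3] at h2
    exact h2
  obtain ⟨m0, hm0, η0, hη0, D0, h00, -⟩ := hkod
  have ha0 : ((η0 0 E : M) : K) ≠ 0 := by
    intro h1
    apply h00 0
    rw [hval m0 _ (hη0 0).1, show η0 0 E = 0 from Subtype.ext h1, mul_zero]
  have hT := tensor_base (Bd := Bd) hδ hδB hmor (hgood m0 _ (hη0 0))
  have hkill : ∀ D : Derivation k K K, (∀ l, D (y l : K) = 0) → ∀ x ∈ M, D x = 0 := by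
    intro D hD x hx
    have h1 := Pool.Agent.W73.PG.PULL.chain (L := K) y hy E hE D ⟨x, hx⟩
    change D x = _ at h1
    rw [h1]
    refine Finset.sum_eq_zero fun c _ => ?_
    have h2 := hD c
    change D (algebraMap M K (y c)) = 0 at h2
    rw [h2, zero_mul]
  obtain ⟨L, hL1, hL2, ⟨α', θ, hα', hli, hθ⟩, -, hL5⟩ := main_L2 hess hn hm0 Bd δ hδ hB
    (fun l => Pool.Agent.Y173.QM.dform (k := k) (y l : K)) (indep_dform hyK) _ ha0 hT ω hreg
    (fun D hD hD' => hker D (hkill D hD) hD')
  have hnL : Algebra.trdeg k L = (d + r : ℕ) := trdeg_up (K := K) hn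
  have hfam : Fin.append α' θ = fam (fun l => algebraMap K L (y l : K)) θ := by
    have h1 : α' = fun l => Pool.Agent.Y173.QM.dform (k := k) (algebraMap K L (y l : K)) := by
      funext l
      exact pull_eq hn (hα' l)
    rw [h1]
    rfl
  rw [hfam] at hli
  obtain ⟨D1, hD1⟩ := eta_ne hnL hli
  refine ⟨L, hL1, hL2, ⟨θ, ?_, hθ⟩, ?_, hL5⟩
  · intro c hc
    obtain ⟨P, hP1, -⟩ := dual_frame hnL hD1
    funext a
    have h1 := hc (P (Fin.natAdd d a)) (fun x hx => by
      have h2 := Pool.Agent.W73.PG.PULL.chain (K := M) (L := L) y hy E hE (P (Fin.natAdd d a)) ⟨x, hx⟩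
      change P (Fin.natAdd d a) (algebraMap K L x) = _ at h2
      rw [h2]
      refine Finset.sum_eq_zero fun b _ => ?_
      have h3 := hP1 (Fin.castAdd r b) (Fin.natAdd d a)
      rw [fam_left, Pool.Agent.Y173.QM.dform_apply, if_neg] at h3
      · change P (Fin.natAdd d a) (algebraMap K L (y b : K)) * _ = 0
        rw [h3, zero_mul]
      · intro h4
        have h5 := congrArg Fin.val h4
        simp only [Fin.val_castAdd, Fin.val_natAdd] at h5
        omega)
    rw [Finset.sum_eq_single a] at h1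
    · have h2 := hP1 (Fin.natAdd d a) (Fin.natAdd d a)
      rw [fam_right, if_pos rfl] at h2
      rw [h2, mul_one] at h1
      exact h1
    · intro b _ hb
      have h2 := hP1 (Fin.natAdd d b) (Fin.natAdd d a)
      rw [fam_right, if_neg (fun h3 => hb (Fin.natAdd_injective _ _ h3))] at h2
      rw [h2, mul_zero]
    · intro h3
      exact absurd (Finset.mem_univ _) h3
  · intro h hh
    obtain ⟨m, hm, η, hη, Dη, h0, hind⟩ := hh
    obtain ⟨δ', hδ'⟩ := exists_pull (K := K) (L := L) δ
    rw [(hL5 δ' hδ').1 h]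
    have hηE : ∀ l, η l E ≠ 0 := fun l h1 => h0 l (by rw [hval m _ (hη l).1, h1, mul_zero])
    have hA0 : (Matrix.of fun i j => Dη i (y j)).det ^ m ≠ 0 := fun h1 =>
      h0 0 (by rw [hval m _ (hη 0).1, h1, zero_mul])
    have hratio : ∀ l : Fin h, η l.succ Dη / η 0 Dη = η l.succ E / η 0 E := by
      intro l
      rw [hval m _ (hη l.succ).1, hval m _ (hη 0).1, mul_div_mul_left _ _ hA0]
    simp only [hratio] at hind
    have hinj : Function.Injective (algebraMap K L) := (algebraMap K L).injective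
    have hne : ∀ l, algebraMap K L ((η l E : M) : K) ≠ 0 := by
      intro l h1
      apply hηE l
      have h2 : ((η l E : M) : K) = 0 := by
        apply hinj
        rw [h1, map_zero]
      exact Subtype.ext h2
    refine ⟨m, hm, fun l D => algebraMap K L ((η l E : M) : K) *
      eta (fam (fun l => algebraMap K L (y l : K)) θ) D ^ m, fun l => ?_, D1, fun l => ?_, ?_⟩
    · refine Pool.Agent.V11168.Rel.psec_iff.2 ⟨pluri_pow _ _, fun w hw D hD => ?_⟩
      obtain ⟨e, v, hwv⟩ := Pool.Agent.W73.PG.PULL.exists_over' (K := K) w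
      have hv := Pool.Agent.Y174.pDIVI k K L (d + r) v w e hwv hw
      exact sec_up hn hB hmor hv (hgood m _ (hη l) v hv) hwv (fun i D hD => hθ i w hw D hD)
        (hδ' v w e hwv) D hD
    · exact mul_ne_zero (hne l) (pow_ne_zero _ hD1)
    · have h1 : (fun l : Fin h => (algebraMap K L ((η l.succ E : M) : K) *
          eta (fam (fun l => algebraMap K L (y l : K)) θ) D1 ^ m) /
          (algebraMap K L ((η 0 E : M) : K) *
          eta (fam (fun l => algebraMap K L (y l : K)) θ) D1 ^ m)) =
          (IsScalarTower.toAlgHom k M L) ∘ (fun l : Fin h => η l.succ E / η 0 E) := by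
        funext l
        rw [mul_div_mul_right _ _ (pow_ne_zero _ hD1), Function.comp_apply, map_div₀]
        rfl
      rw [h1]
      exact hind.map' (RingHom.injective _)

end

end Pool.Agent.V11168.MV
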