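import Pool.Agent.V11168.MV.Loc

/-! Multivalued logarithmic forms relative to an orbifold base: sections. -/

set_option autoImplicit false
set_option linter.overlappingInstances false
set_option linter.unusedSectionVars false

universe u v

open FF IntermediateField Pool.Agent.W619.PQ Pool.Agent.W619.PL Pool.Agent.W619.TW
  Pool.Agent.W603.LV Pool.Agent.W619.Y Pool.Agent.Y173.QA Pool.Agent.Y173.QM Pool.Agent.Y174
  Pool.Agent.V11168.Pair

namespace Pool.Agent.V11168.MV

section

variable {k : Type v} {L : Type u} [Field k] [CharZero k] [Field L] [Algebra k L]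

theorem pluri_pow {n m : ℕ} (a : L) (φ : Fin n → Derivation k L L →ₗ[L] L) :
    IsPluriForm k L n m (fun D => a * eta φ D ^ m) := by
  intro A D
  have h1 := eta_pluri φ A D
  change a * eta φ (fun i => ∑ j, A i j • D j) ^ m = _
  rw [h1, pow_one, mul_pow]
  ring

theorem log_pres {w : Place k L} {D : Derivation k L L} (h : ∀ f, w.Reg (D f / f)) : Pres w D := by
  intro f hf
  have h1 : Ge w 0 f := hf
  exact ge_logval h1 h

theorem logFld_of_log {w : Place k L} {D : Derivation k L L} (h : ∀ f, w.Reg (D f / f))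
    (Bd : Place k L → Prop) : LogFld Bd w D := ⟨fun _ => log_pres h, fun _ => h⟩

/-- the tensor from the base is a logarithmic tensor -/
theorem tensor_base {M : IntermediateField k L} {n d m : ℕ} {Bd : Place k L → Prop}
    {δ : Place k L → ℝ} {δB : Place k M → ℝ} (hδ0 : ∀ v, 0 ≤ δ v) (hδB : ∀ u, δB u ≤ 1)
    (hmor : ∀ v : Place k L, IsDivisorial v n → ∀ (u : Place k M) (c : ℕ), LiesOn v u c →
      1 - δ v ≤ c * (1 - δB u)) {y : Fin d → L} {a : L}
    (hgood : ∀ v : Place k L, IsDivisorial v n → BGoodP M d m δB v y a) :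
    TensorLog n m Bd δ (fun l => Pool.Agent.Y173.QM.dform (k := k) (y l)) a := by
  intro v hv D hD
  obtain ⟨Z, z, c, bl, β, hzM, hzreg, hZ, ha, hβ, hbl, hsum⟩ := hgood v hv
  have e1 : (Matrix.of fun i j => Pool.Agent.Y173.QM.dform (k := k) (y i) (D j)).det =
      Z.det * (Matrix.of fun i j => Pool.Agent.Y173.QM.dform (k := k) (z i) (D j)).det := by
    rw [← Matrix.det_mul]
    congr 1
    ext i j
    rw [Matrix.mul_apply]
    exact hZ (D j) i
  have e2 : a * (Matrix.of fun i j => Pool.Agent.Y173.QM.dform (k := k) (y i) (D j)).det ^ m =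
      (a * Z.det ^ m) * eta (fun i => Pool.Agent.Y173.QM.dform (k := k) (z i)) D ^ m := by
    rw [e1, mul_pow, mul_assoc]
    rfl
  have hc0 : (0 : ℝ) ≤ c * (1 - β) := by
    rcases hβ with ⟨u, -, rfl⟩ | ⟨rfl, -⟩
    · exact mul_nonneg (Nat.cast_nonneg c) (by linarith [hδB u])
    · simp
  have hlog : ∀ E : Fin d → Derivation k L L, (∀ j f, v.Reg (E j f / f)) →
      GeR v (m * c) (eta (fun i => Pool.Agent.Y173.QM.dform (k := k) (z i)) E ^ m) := by
    intro E hE
    have h1 : Ge v (∑ l, bl l) (eta (fun i => Pool.Agent.Y173.QM.dform (k := k) (z i)) E) := by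
      unfold eta
      refine Pool.Agent.W603.LV.ge_det v _ _ (fun i _ => bl i) (fun i j => ?_) (fun σ => ?_)
      · exact ge_logval (hbl i) (hE j)
      · exact (Equiv.sum_comp σ bl).ge
    rw [hsum] at h1
    have h2 := (Ge.toR h1).pow m
    simpa using h2
  have hm0 : (0 : ℝ) ≤ m := Nat.cast_nonneg m
  by_cases h0 : a * (Matrix.of fun i j => Pool.Agent.Y173.QM.dform (k := k) (y i) (D j)).det ^ m = 0
  · exact Or.inl h0
  right
  constructor
  · intro hB
    have h1 := ha.mul (hlog D fun j => (hD j).2 hB)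
    rw [← e2] at h1
    have h2 := h1.resolve_left h0
    have h3 : (0 : ℝ) ≤ (v.ord (a * (Matrix.of fun i j => Pool.Agent.Y173.QM.dform (k := k) (y i) (D j)).det ^ m) : ℝ) := by
      refine le_trans ?_ h2
      have h4 := mul_nonneg hm0 hc0
      linarith
    exact_mod_cast h3
  · intro hB
    have hP : ∀ j, Pres v (D j) := fun j => (hD j).1 hB
    rcases hβ with ⟨u, hu, rfl⟩ | ⟨rfl, h5⟩
    · have h1 := log_to_pres (n := d) (m := m) (w := v) (N := m * c)
        (ω := fun E => eta (fun i => Pool.Agent.Y173.QM.dform (k := k) (z i)) E ^ m) (by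
          have h2 := pluri_pow (m := m) (1 : L) (fun i => Pool.Agent.Y173.QM.dform (k := k) (z i))
          simpa using h2) hlog D hP
      have h3 := ha.mul h1
      rw [← e2] at h3
      refine le_trans ?_ (h3.resolve_left h0)
      have h4 := hmor v hv u c hu
      have h6 := mul_le_mul_of_nonneg_left h4 hm0
      linarith
    · have h1 : Ge v 0 (eta (fun i => Pool.Agent.Y173.QM.dform (k := k) (z i)) D) := by
        unfold eta
        refine Pool.Agent.W619.PQ.ge_det v _ fun i j => ?_
        exact hP j _ (hzreg i)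
      have h3 := ha.mul ((Ge.toR h1).pow m)
      rw [← e2] at h3
      refine le_trans ?_ (h3.resolve_left h0)
      have h6 := mul_nonneg hm0 (hδ0 v)
      push_cast
      linarith

end

section

variable {k : Type v} {K L : Type u} [Field k] [CharZero k] [Field K] [Field L] [Algebra k K]
  [Algebra k L] [Algebra K L] [IsScalarTower k K L]

/-- the local estimate on a cover -/
theorem sec_up {M : IntermediateField k K} {n d r m : ℕ} {Bd : Place k K → Prop}
    (hn : Algebra.trdeg k K = n)
    {δ : Place k K → ℝ} {δB : Place k M → ℝ} (hB1 : ∀ v, Bd v → δ v = 1)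
    (hmor : ∀ v : Place k K, IsDivisorial v (d + r) → ∀ (u : Place k M) (c : ℕ), LiesOn v u c →
      1 - δ v ≤ c * (1 - δB u)) {y : Fin d → K} {a : K} {v : Place k K}
    (hv : IsDivisorial v (d + r))
    (hgood : BGoodP M d m δB v y a) {w : Place k L} {e : ℕ} (hwv : LiesOn w v e)
    {θ : Fin r → Derivation k L L →ₗ[L] L}
    (hθ : ∀ i, ∀ D : Derivation k L L, LogFld (BdOn Bd) w D → w.Reg (θ i D))
    {δ' : ℝ} (hδ' : δ' = max 0 (1 - e * (1 - δ v)))
    (D : Fin (d + r) → Derivation k L L) (hD : ∀ j, Pres w (D j)) :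
    GeR w (-(m * δ')) (algebraMap K L a *
      eta (fam (fun l => algebraMap K L (y l)) θ) D ^ m) := by
  obtain ⟨Z, z, c, bl, β, hzM, hzreg, hZ, ha, hβ, hbl, hsum⟩ := hgood
  obtain ⟨t, ht⟩ := Pool.Agent.W636.PG.exists_basis k K n hn
  obtain ⟨E, hE⟩ := Pool.Agent.W636.PG.exists_duals k K n t ht
  have hZ' : ∀ (D : Derivation k L L) l, D (algebraMap K L (y l)) =
      ∑ c, (Z.map (algebraMap K L)) l c * D (algebraMap K L (z c)) := by
    intro D l
    have hch := fun f : K => Pool.Agent.W73.PG.PULL.chain (L := L) t ht E hE D f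
    rw [hch]
    simp only [hch (z _), Matrix.map_apply, Finset.mul_sum]
    rw [Finset.sum_comm]
    refine Finset.sum_congr rfl fun b _ => ?_
    rw [hZ (E b) l, map_sum, Finset.mul_sum]
    refine Finset.sum_congr rfl fun c _ => ?_
    rw [map_mul]
    ring
  have e1 : eta (fam (fun l => algebraMap K L (y l)) θ) D =
      algebraMap K L Z.det * eta (fam (fun l => algebraMap K L (z l)) θ) D := by
    rw [eta_base (Z.map (algebraMap K L)) hZ' θ D]
    congr 1
    rw [RingHom.map_det]
    rfl
  have e2 : algebraMap K L a * eta (fam (fun l => algebraMap K L (y l)) θ) D ^ m =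
      algebraMap K L (a * Z.det ^ m) * eta (fam (fun l => algebraMap K L (z l)) θ) D ^ m := by
    rw [e1, mul_pow, map_mul, map_pow]
    ring
  rw [e2]
  have hup : ∀ {N : ℝ} {f : K}, GeR v N f → GeR w (e * N) (algebraMap K L f) := by
    intro N f hf
    rcases hf with hf | hf
    · left; rw [hf, map_zero]
    · right
      rw [hwv.2]
      push_cast
      exact mul_le_mul_of_nonneg_left hf (Nat.cast_nonneg e)
  have hupZ : ∀ {N : ℤ} {f : K}, Ge v N f → Ge w (e * N) (algebraMap K L f) := by
    intro N f hf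
    rcases hf with hf | hf
    · left; rw [hf, map_zero]
    · right
      rw [hwv.2]
      exact mul_le_mul_of_nonneg_left hf (by positivity)
  have hlog : ∀ E : Fin (d + r) → Derivation k L L, (∀ j f, w.Reg (E j f / f)) →
      GeR w (m * (e * c)) (eta (fam (fun l => algebraMap K L (z l)) θ) E ^ m) := by
    intro E hE
    have h1 := eta_log (w := w) (z := fun l => algebraMap K L (z l)) (b := fun l => e * bl l)
      (fun l => hupZ (hbl l)) (θ := θ) hE (fun i j => hθ i (E j) (logFld_of_log (hE j) _))
    rw [← Finset.mul_sum, hsum] at h1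
    have h2 := (Ge.toR h1).pow m
    simpa using h2
  have hplu : IsPluriForm k L (d + r) m
      (fun E => eta (fam (fun l => algebraMap K L (z l)) θ) E ^ m) := by
    have h2 := pluri_pow (m := m) (1 : L) (fam (fun l => algebraMap K L (z l)) θ)
    simpa using h2
  have hm0 : (0 : ℝ) ≤ m := Nat.cast_nonneg m
  have he0 : (0 : ℝ) ≤ e := Nat.cast_nonneg e
  have h1 := (hup ha).mul (log_to_pres hplu hlog D hD)
  have hmax : 1 - e * (1 - δ v) ≤ δ' := by rw [hδ']; exact le_max_right _ _
  have hmax0 : 0 ≤ δ' := by rw [hδ']; exact le_max_left _ _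
  rcases hβ with ⟨u, hu, rfl⟩ | ⟨rfl, h5⟩
  · refine h1.mono ?_
    have h4 := hmor v hv u c hu
    have h6 := mul_le_mul_of_nonneg_left h4 he0
    have h7 : 1 - (e : ℝ) * (c * (1 - δB u)) ≤ δ' := by linarith
    have h8 := mul_le_mul_of_nonneg_left h7 hm0
    linarith
  · by_cases hBw : BdOn Bd w
    · obtain ⟨v', e', hv', hBd⟩ := hBw
      obtain ⟨h6, -⟩ := liesOn_unique hv' hwv
      rw [h6] at hBd
      have h7 := hB1 v hBd
      refine h1.mono ?_
      rw [h7] at hmax
      have h8 : (1 : ℝ) ≤ δ' := by linarith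
      have h9 := mul_le_mul_of_nonneg_left h8 hm0
      push_cast
      linarith
    · have h6 := eta_pres0 (w := w) (z := fun l => algebraMap K L (z l))
        (fun l => by
          have h7 := hupZ (N := 0) (hzreg l)
          rw [mul_zero] at h7
          exact h7) (θ := θ) hD (fun i j => hθ i (D j) ⟨fun _ => hD j, fun h => absurd h hBw⟩)
      refine ((hup ha).mul ((Ge.toR h6).pow m)).mono ?_
      have h9 := mul_nonneg hm0 hmax0
      push_cast
      linarith

end

end Pool.Agent.V11168.MV
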